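import Pool.Agent.T9h68.QC.Star

/-!
# Piece (H2): all random stars together
-/

set_option autoImplicit false
set_option linter.unusedSectionVars false

namespace Pool.Agent.T9h68.QC

open Finset
open Pool.Agent.PC34 (prob)
open Pool.Agent.T9h34.Q

open Classical in
theorem prob_eq {Ω : Type} [Fintype Ω] (A : Ω → Prop) :
    prob A = (∑ x, if A x then (1 : ℝ) else 0) / Fintype.card Ω := by
  unfold prob
  congr 1
  rw [card_filter, Nat.cast_sum]
  refine sum_congr rfl fun x _ => ?_
  split_ifs <;> simp

theorem sum_update {κ P : Type} [Fintype κ] [DecidableEq κ] [Fintype P] [Fintype (κ → P)] (i : κ)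
    (H : (κ → P) → ℝ) :
    ∑ pk : κ → P, ∑ p : P, H (Function.update pk i p) = Fintype.card P * ∑ pk, H pk := by
  let e : (κ → P) × P ≃ (κ → P) × P :=
    { toFun := fun x => (Function.update x.1 i x.2, x.1 i)
      invFun := fun x => (Function.update x.1 i x.2, x.1 i)
      left_inv := fun x => by simp
      right_inv := fun x => by simp }
  have h1 : ∑ x : (κ → P) × P, H (Function.update x.1 i x.2) = ∑ x : (κ → P) × P, H x.1 :=
    Fintype.sum_equiv e _ _ fun x => rfl
  rw [Fintype.sum_prod_type, Fintype.sum_prod_type] at h1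
  rw [h1, mul_sum]
  refine sum_congr rfl fun pk _ => ?_
  show ∑ y : P, H pk = _
  rw [sum_const, card_univ, nsmul_eq_mul]

open Classical in
theorem many {E P κ : Type} [Fintype E] [DecidableEq E] [Fintype P] [Fintype κ]
    [Fintype (κ → P)]     (st : P → Finset E) {δ : ℝ}
    (hst : ∀ Θ : Finset E → Prop,
      ∑ p, ∑ G : Finset E, (if Θ (G ∪ st p) then (1 : ℝ) else 0) ≤
        Fintype.card P * ((∑ G : Finset E, if Θ G then (1 : ℝ) else 0) + δ))
    (Θ : Finset E → Prop) (hP : 0 < Fintype.card P) (I : Finset κ) :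
    ∑ pk : κ → P, ∑ G : Finset E, (if Θ (G ∪ I.biUnion fun i => st (pk i)) then (1 : ℝ) else 0) ≤
      Fintype.card (κ → P) * ((∑ G : Finset E, if Θ G then (1 : ℝ) else 0) + I.card * δ) := by
  induction I using Finset.induction_on with
  | empty =>
    simp
  | insert i I hi ih =>
    have hP' : (0 : ℝ) < Fintype.card P := by exact_mod_cast hP
    have h1 := sum_update i (fun pk : κ → P =>
      ∑ G : Finset E, (if Θ (G ∪ (insert i I).biUnion fun i => st (pk i)) then (1 : ℝ) else 0))
    have h2 : ∀ (pk : κ → P) (p : P) (G : Finset E),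
        (G ∪ (insert i I).biUnion fun j => st (Function.update pk i p j)) =
        (G ∪ st p) ∪ I.biUnion fun j => st (pk j) := by
      intro pk p G
      rw [biUnion_insert, Function.update_self, union_assoc]
      congr 2
      refine biUnion_congr rfl fun j hj => ?_
      rw [Function.update_of_ne]
      rintro rfl
      exact hi hj
    simp only [h2] at h1
    have h3 : ∀ pk : κ → P,
        ∑ p, ∑ G : Finset E, (if Θ ((G ∪ st p) ∪ I.biUnion fun j => st (pk j)) then (1 : ℝ) else 0) ≤
        Fintype.card P * ((∑ G : Finset E,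
          if Θ (G ∪ I.biUnion fun j => st (pk j)) then (1 : ℝ) else 0) + δ) := fun pk =>
      hst (fun G => Θ (G ∪ I.biUnion fun j => st (pk j)))
    have h4 := sum_le_sum fun pk (_ : pk ∈ (univ : Finset (κ → P))) => h3 pk
    rw [h1, ← mul_sum] at h4
    have h5 := le_of_mul_le_mul_left h4 hP'
    refine h5.trans ?_
    rw [sum_add_distrib, sum_const, card_univ, nsmul_eq_mul, card_insert_of_notMem hi]
    push_cast
    linarith

open Classical in
theorem prob_env {G Pk Nu : Type} [Fintype G] [Fintype Pk] [Fintype Nu] [Nonempty Nu]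
    (Q : G → Pk → Prop) : prob (fun ω : G × Pk × Nu => Q ω.1 ω.2.1) =
      (∑ pk, ∑ g, if Q g pk then (1 : ℝ) else 0) / (Fintype.card G * Fintype.card Pk) := by
  have hs : (∑ ω : G × Pk × Nu, if Q ω.1 ω.2.1 then (1 : ℝ) else 0) =
      (∑ pk, ∑ g, if Q g pk then (1 : ℝ) else 0) * Fintype.card Nu := by
    rw [Fintype.sum_prod_type, sum_comm, Fintype.sum_prod_type, sum_mul]
    refine sum_congr rfl fun pk _ => ?_
    show ∑ y : Nu, ∑ g : G, (if Q g pk then (1 : ℝ) else 0) = _
    rw [sum_const, card_univ, nsmul_eq_mul, mul_comm]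
  have hν : (Fintype.card Nu : ℝ) ≠ 0 := by exact_mod_cast Fintype.card_ne_zero
  rw [prob_eq, hs, Fintype.card_prod, Fintype.card_prod]
  push_cast
  rw [← mul_assoc]
  exact mul_div_mul_right _ _ hν

/-- (H2) -/
theorem stTV : StTV := by
  classical
  intro V _ _ _ B d m hR Θ
  have h1 := stStar V (Rt B d m) hR
  have hM0 : (0 : ℝ) < (Fintype.card (Finset (Sym2 V)) : ℝ) := by exact_mod_cast Fintype.card_pos
  have hP : 0 < Fintype.card (Option (Rt B d m) → V) := Fintype.card_pos
  have hP' : (0 : ℝ) < Fintype.card (Option (Rt B d m) → V) := by exact_mod_cast hP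
  have hst : ∀ Θ : Finset (Sym2 V) → Prop,
      ∑ p : Option (Rt B d m) → V, ∑ G : Finset (Sym2 V),
        (if Θ (G ∪ Pool.Agent.T9h34.Q.star p) then (1 : ℝ) else 0) ≤
      Fintype.card (Option (Rt B d m) → V) *
        ((∑ G : Finset (Sym2 V), if Θ G then (1 : ℝ) else 0) +
          2 * (Fintype.card (Rt B d m) : ℝ) / Fintype.card V *
            Fintype.card (Finset (Sym2 V))) := by
    intro Θ
    have h2 := h1 Θ
    rw [prob_eq, prob_eq, Fintype.card_prod, Fintype.sum_prod_type, sum_comm] at h2
    push_cast at h2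
    rw [div_le_iff₀ (by positivity)] at h2
    refine h2.trans (le_of_eq ?_)
    generalize (Fintype.card (Finset (Sym2 V)) : ℝ) = M at *
    generalize 2 * (Fintype.card (Rt B d m) : ℝ) / Fintype.card V = δ at *
    field_simp
  have hix : ixBelow B d m B = univ := by
    unfold ixBelow
    rw [filter_eq_self]
    intro i _
    exact i.1.2
  have h2 := prob_env (G := Finset (Sym2 V)) (Pk := Ix B d m → Packet V B d m)
    (Nu := V → Ix B d m → V) (fun G pk => Θ (G ∪ univ.biUnion fun i =>
      Pool.Agent.T9h34.Q.star (pk i)))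
  have h3 : (fun ω : Env V B d m => Θ (stage ω B)) =
      fun ω : Finset (Sym2 V) × (Ix B d m → Packet V B d m) × (V → Ix B d m → V) =>
        Θ (ω.1 ∪ univ.biUnion fun i => Pool.Agent.T9h34.Q.star (ω.2.1 i)) := by
    funext ω
    unfold stage
    rw [hix]
  have h4 : (0 : ℝ) < Fintype.card (Ix B d m → Packet V B d m) := by
    exact_mod_cast Fintype.card_pos
  have h5 : prob (fun ω : Env V B d m => Θ (stage ω B)) =
      (∑ pk : Ix B d m → Packet V B d m, ∑ G : Finset (Sym2 V),
        if Θ (G ∪ univ.biUnion fun i => Pool.Agent.T9h34.Q.star (pk i)) then (1 : ℝ) else 0) /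
      (Fintype.card (Finset (Sym2 V)) * Fintype.card (Ix B d m → Packet V B d m)) := by
    rw [h3, ← h2]
  rw [h5, prob_eq, div_le_iff₀ (by positivity)]
  refine (many (Pool.Agent.T9h34.Q.star (ρ := Rt B d m) (V := V)) hst Θ hP univ).trans
    (le_of_eq ?_)
  rw [card_univ]
  generalize (Fintype.card (Finset (Sym2 V)) : ℝ) = M at *
  generalize (Fintype.card (Ix B d m → Packet V B d m) : ℝ) = κ at *
  generalize 2 * (Fintype.card (Rt B d m) : ℝ) / Fintype.card V = δ at *
  generalize (∑ G : Finset (Sym2 V), if Θ G then (1 : ℝ) else 0) = S at *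
  field_simp

end Pool.Agent.T9h68.QC
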