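import Pool.Agent.T9h34.Q.Spec2
import Pool.Agent.T9h68.QC.TV

/-!
# Piece (K): sets of pairs (with loops) and graphs
-/

set_option autoImplicit false
set_option linter.unusedSectionVars false

namespace Pool.Agent.T9h68.QC

open Finset
open Pool.Agent.PC34 (prob)
open Pool.Agent.T9h34.P (gr)
open Pool.Agent.T9h34.Q

theorem prob_fst {A B C X : Type} [Fintype A] [Fintype B] [Fintype C] [Nonempty C] [Fintype X]
    (e : A ≃ B × C) (Θ : B → X → Prop) :
    prob (fun x : A × X => Θ (e x.1).1 x.2) = prob (fun x : B × X => Θ x.1 x.2) := by
  classical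
  have h1 : (∑ x : A × X, if Θ (e x.1).1 x.2 then (1 : ℝ) else 0) =
      Fintype.card C * ∑ x : B × X, if Θ x.1 x.2 then (1 : ℝ) else 0 := by
    rw [Fintype.sum_prod_type, Fintype.sum_prod_type]
    rw [Fintype.sum_equiv e (fun a => ∑ y, if Θ (e (a, y).1).1 (a, y).2 then (1 : ℝ) else 0)
      (fun bc => ∑ y, if Θ bc.1 y then (1 : ℝ) else 0) (fun a => rfl)]
    rw [Fintype.sum_prod_type, mul_sum]
    refine sum_congr rfl fun b _ => ?_
    show ∑ c : C, ∑ y, (if Θ b y then (1 : ℝ) else 0) = _
    rw [sum_const, card_univ, nsmul_eq_mul]
  have h2 : (Fintype.card C : ℝ) ≠ 0 := by exact_mod_cast Fintype.card_ne_zero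
  rw [prob_eq, prob_eq, h1, Fintype.card_prod, Fintype.card_prod, Fintype.card_congr e,
    Fintype.card_prod]
  push_cast
  rw [show (Fintype.card B : ℝ) * Fintype.card C * Fintype.card X =
    Fintype.card C * (Fintype.card B * Fintype.card X) by ring]
  exact mul_div_mul_left _ _ h2

/-- a set of pairs is a graph and a set of loops -/
noncomputable def grEquiv (n : ℕ) : Finset (Sym2 (Fin n)) ≃ SimpleGraph (Fin n) × Finset (Fin n) := by
  classical
  exact
    { toFun := fun U => (gr U, univ.filter fun v => s(v, v) ∈ U)
      invFun := fun x => univ.filter fun e => e ∈ x.1.edgeSet ∨ ∃ v ∈ x.2, e = s(v, v)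
      left_inv := by
        intro U
        ext e
        induction e using Sym2.ind with
        | _ u v =>
          simp only [mem_filter, mem_univ, true_and, SimpleGraph.mem_edgeSet, gr]
          constructor
          · rintro (h | ⟨w, hw, h⟩)
            · exact h.2
            · rw [h]; exact hw
          · intro h
            by_cases huv : u = v
            · subst huv
              exact Or.inr ⟨u, h, rfl⟩
            · exact Or.inl ⟨huv, h⟩
      right_inv := by
        rintro ⟨G, A⟩
        refine Prod.ext ?_ ?_
        · ext u v
          simp only [gr, mem_filter, mem_univ, true_and, SimpleGraph.mem_edgeSet]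
          constructor
          · rintro ⟨huv, h | ⟨w, hw, h⟩⟩
            · exact h
            · rw [Sym2.eq_iff] at h
              rcases h with h | h
              · exact absurd (h.1.trans h.2.symm) huv
              · exact absurd (h.1.trans h.2.symm) huv
          · intro h
            exact ⟨h.ne, Or.inl h⟩
        · ext v
          simp only [mem_filter, mem_univ, true_and, SimpleGraph.mem_edgeSet]
          constructor
          · rintro (h | ⟨w, hw, h⟩)
            · exact absurd rfl h.ne
            · rw [Sym2.eq_iff] at h
              rcases h with h | h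
              · rw [h.1]; exact hw
              · rw [h.1]; exact hw
          · intro h
            exact Or.inr ⟨v, h, rfl⟩ }

theorem grEquiv_fst {n : ℕ} (U : Finset (Sym2 (Fin n))) : (grEquiv n U).1 = gr U := rfl

/-- (K) -/
theorem stGr : StGr := by
  intro n X _ Θ
  have h1 := prob_fst (grEquiv n) Θ
  simp only [grEquiv_fst] at h1
  exact h1

end Pool.Agent.T9h68.QC
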