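import Pool.Agent.T9h34.Q.Spec2
import Pool.Agent.T9h68.QC.TV

/-!
# Piece (G3): circuits with nondecreasing gates, the union bound
-/

set_option autoImplicit false
set_option linter.unusedSectionVars false

namespace Pool.Agent.T9h68.QC

open Finset
open Pool.Agent.PC34 (prob)
open Pool.Agent.T9h34 (graphInput)
open Pool.Agent.T9h34.P (gr)
open Pool.Agent.HC34 (srcs IsLevel DepthLE)
open Pool.Agent.T9h34.Q

theorem prob_mono' {Ω : Type} [Fintype Ω] {A B : Ω → Prop} (h : ∀ x, A x → B x) :
    prob A ≤ prob B := by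
  classical
  rw [prob_eq, prob_eq]
  refine div_le_div_of_nonneg_right ?_ (Nat.cast_nonneg _)
  refine sum_le_sum fun x _ => ?_
  by_cases hA : A x
  · rw [if_pos hA, if_pos (h x hA)]
  · rw [if_neg hA]
    split_ifs <;> norm_num

theorem prob_or' {Ω : Type} [Fintype Ω] (A B : Ω → Prop) :
    prob (fun x => A x ∨ B x) ≤ prob A + prob B := by
  classical
  rw [prob_eq, prob_eq, prob_eq, ← add_div, ← sum_add_distrib]
  refine div_le_div_of_nonneg_right ?_ (Nat.cast_nonneg _)
  refine sum_le_sum fun x _ => ?_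
  by_cases hA : A x
  · by_cases hB : B x
    · simp [hA, hB]
    · simp [hA, hB]
  · by_cases hB : B x
    · simp [hA, hB]
    · simp [hA, hB]

theorem prob_exists' {Ω : Type} [Fintype Ω] (A : ℕ → Ω → Prop) (N : ℕ) :
    prob (fun x => ∃ j < N, A j x) ≤ ∑ j ∈ range N, prob (A j) := by
  induction N with
  | zero =>
    classical
    rw [prob_eq]
    simp
  | succ N ih =>
    rw [sum_range_succ]
    refine (prob_mono' (B := fun x => (∃ j < N, A j x) ∨ A N x) ?_).trans
      ((prob_or' _ _).trans (add_le_add_left ih _))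
    rintro x ⟨j, hj, hx⟩
    rcases Nat.lt_succ_iff_lt_or_eq.1 hj with h | h
    · exact Or.inl ⟨j, h, hx⟩
    · exact Or.inr (h ▸ hx)

theorem srcVal_mono {n f : ℕ} (C : T9h35.RW.Circuit (Fin n × Fin n))
    (hm : ∀ g ∈ C.gates, g.IsMono f) (a : T9h35.RW.Src (Fin n × Fin n)) :
    Monotone (srcVal C a) := by
  intro U U' hU
  have hxy : ∀ i : Fin n × Fin n, graphInput (gr U) i = true → graphInput (gr U') i = true := by
    intro i hi
    simp only [graphInput, decide_eq_true_eq] at hi ⊢
    exact ⟨hi.1, hU hi.2⟩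
  exact T9h35.RW.Src.eval_mono hxy (T9h35.RW.runGates_mono hxy C.gates hm) a

/-- (G3) -/
theorem stMono (hB : StBad) (hC : StCirc) : StMono := by
  intro n B d m k f c q D s C hn hkn hmono hs hdep hf hc hd hq hqB
  subst hd
  obtain ⟨lev, hlev, hIs⟩ := hdep
  have : Nonempty (Fin n) := ⟨⟨0, hn⟩⟩
  have hk : k ≤ Fintype.card (Fin n) := by rwa [Fintype.card_fin]
  set x : ℝ := (k : ℝ) / (m + 1) with hx
  have hx0 : 0 ≤ x := by positivity
  have hw0 : ∀ j, 0 ≤ wgt x j := fun j => by unfold wgt; positivity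
  have hcd : c ≤ f * c := Nat.le_mul_of_pos_left c (by omega)
  have hgate : ∀ j < C.size,
      prob (fun y : {S : Finset (Fin n) // S.card = k} × Env (Fin n) B (f * c) m =>
        Bad (srcVal C (.gate j)) (q * lev j) q (c + 1) (f * c) y.1.1 y.2) ≤
      q * ∑ j ∈ Icc (c + 1) (f * c), wgt x j := by
    intro j hj
    have h1 : q * lev j + q ≤ B := by
      have h2 : lev j + 1 ≤ D + 1 := by have := hlev j hj; omega
      calc q * lev j + q = q * (lev j + 1) := by ring
        _ ≤ q * (D + 1) := Nat.mul_le_mul_left q h2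
        _ ≤ B := hqB
    exact hB (Fin n) B (f * c) m k hk (q * lev j) q (c + 1) (f * c) h1 le_rfl _ (srcVal_mono C hmono _)
  have hout : prob (fun y : {S : Finset (Fin n) // S.card = k} × Env (Fin n) B (f * c) m =>
        Bad (srcVal C C.out.1) (q * D) q 1 c y.1.1 y.2) ≤ q * ∑ j ∈ Icc 1 c, wgt x j := by
    have h1 : q * D + q ≤ B := by
      calc q * D + q = q * (D + 1) := by ring
        _ ≤ B := hqB
    exact hB (Fin n) B (f * c) m k hk (q * D) q 1 c h1 hcd _ (srcVal_mono C hmono _)
  refine (prob_mono' (B := fun y : {S : Finset (Fin n) // S.card = k} × Env (Fin n) B (f * c) m =>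
    (∃ j < C.size, Bad (srcVal C (.gate j)) (q * lev j) q (c + 1) (f * c) y.1.1 y.2) ∨
      Bad (srcVal C C.out.1) (q * D) q 1 c y.1.1 y.2) ?_).trans ?_
  · rintro ⟨S, ω⟩ ⟨h1, h2⟩
    by_contra hcon
    push Not at hcon
    obtain ⟨h3, h4⟩ := hcon
    have h5 := hC n B (f * c) m f c q D C lev hmono hlev hIs hf hc hq hqB ω S.1 h3 h4
    have h6 : C.out.2 ≤ srcVal C C.out.1 (ω.1 ∪ KT S.1) := by
      have := h1
      unfold T9h35.RW.Circuit.eval at this
      rw [T9h35.RW.test_eval] at this
      exact this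
    have h7 : C.eval (graphInput (gr (stage ω B))) = true := by
      unfold T9h35.RW.Circuit.eval
      rw [T9h35.RW.test_eval]
      exact h6.trans h5
    have h8 : C.eval (graphInput (gr (stage ω B))) = false := h2
    rw [h7] at h8
    exact absurd h8 (by simp)
  · refine (prob_or' _ _).trans ?_
    unfold errQ
    refine add_le_add ?_ hout
    refine (prob_exists' _ _).trans ?_
    refine (sum_le_sum fun j hj => hgate j (mem_range.1 hj)).trans ?_
    rw [sum_const, card_range, nsmul_eq_mul]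
    have h1 : (C.size : ℝ) ≤ s := by exact_mod_cast hs
    refine mul_le_mul_of_nonneg_right h1 ?_
    exact mul_nonneg (Nat.cast_nonneg _) (sum_nonneg fun j _ => hw0 j)

end Pool.Agent.T9h68.QC
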