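import Pool.Agent.T9h34.Q.Spec3
import Pool.Agent.T9h68.QC.Mono

/-!
# Piece (G3'): circuits with nondecreasing gates, the union bound, sharp form
-/

set_option autoImplicit false
set_option linter.unusedSectionVars false

namespace Pool.Agent.T9h68.QC

open Finset
open Pool.Agent.PC34 (prob withClique)
open Pool.Agent.T9h34 (graphInput)
open Pool.Agent.T9h34.P (gr)
open Pool.Agent.HC34 (srcs IsLevel DepthLE)
open Pool.Agent.T9h34.Q

theorem isBool_outInd {n : ℕ} (C : T9h35.RW.Circuit (Fin n × Fin n)) : IsBool (outInd C) := by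
  intro U
  unfold outInd
  split_ifs
  · exact Or.inr rfl
  · exact Or.inl rfl

theorem outInd_mono {n f : ℕ} (C : T9h35.RW.Circuit (Fin n × Fin n))
    (hm : ∀ g ∈ C.gates, g.IsMono f) : Monotone (outInd C) := by
  intro U U' hU
  have h1 : C.eval (graphInput (gr U)) = true → C.eval (graphInput (gr U')) = true := by
    intro h
    unfold T9h35.RW.Circuit.eval at h ⊢
    rw [T9h35.RW.test_eval] at h ⊢
    exact h.trans (srcVal_mono C hm C.out.1 hU)
  unfold outInd
  split_ifs with h2 h3 h3
  · exact le_rfl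
  · exact absurd (h1 h2) h3
  · exact zero_le_one
  · exact le_rfl

/-- (G3') -/
theorem stMonoB (hB : StBad) (hBB : StBadB) (hC : StCircB) : StMonoB := by
  intro n B d m k f c q D s C hn hkn hmono hs hdep hf hc hd hm hq hqB hcard
  subst hd
  obtain ⟨lev, hlev, hIs⟩ := hdep
  have : Nonempty (Fin n) := ⟨⟨0, hn⟩⟩
  have hk : k ≤ Fintype.card (Fin n) := by rwa [Fintype.card_fin]
  set x : ℝ := (k : ℝ) / (m + 1) with hx
  have hx0 : 0 ≤ x := by positivity
  have hw0 : ∀ j, 0 ≤ wgt x j := fun j => by unfold wgt; positivity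
  have hcd : c ≤ f * c := Nat.le_mul_of_pos_left c (by omega)
  have hgate : ∀ j < C.size,
      prob (fun y : {S : Finset (Fin n) // S.card = k} × Env (Fin n) B (f * c) m =>
        Bad (srcVal C (.gate j)) (q * lev j) q (c + 1) (f * c) y.1.1 y.2) ≤
      q * ∑ j ∈ Icc (c + 1) (f * c), wgt x j := by
    intro j hj
    have h1 : q * lev j + q ≤ B := by
      have h2 : lev j + 1 ≤ D + 1 := by have := hlev j hj; omega
      calc q * lev j + q = q * (lev j + 1) := by ring
        _ ≤ q * (D + 1) := Nat.mul_le_mul_left q h2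
        _ ≤ B := hqB
    exact hB (Fin n) B (f * c) m k hk (q * lev j) q (c + 1) (f * c) h1 le_rfl _ (srcVal_mono C hmono _)
  have hout : prob (fun y : {S : Finset (Fin n) // S.card = k} × Env (Fin n) B (f * c) m =>
        Bad (outInd C) (q * D) q 1 c y.1.1 y.2) ≤
      ((f * c * m + c : ℕ) : ℝ) * (2 * (Fintype.card (Rt B (f * c) m) : ℝ) / n) *
        (q * ∑ j ∈ Icc 1 c, wgt x j) := by
    have h1 : q * D + q ≤ B := by
      calc q * D + q = q * (D + 1) := by ring
        _ ≤ B := hqB
    have h2 := hBB (Fin n) B (f * c) m k hk (q * D) q 1 c h1 le_rfl hcd hm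
      (by rwa [Fintype.card_fin]) _ (outInd_mono C hmono) (isBool_outInd C)
    rwa [Fintype.card_fin] at h2
  refine (prob_mono' (B := fun y : {S : Finset (Fin n) // S.card = k} × Env (Fin n) B (f * c) m =>
    (∃ j < C.size, Bad (srcVal C (.gate j)) (q * lev j) q (c + 1) (f * c) y.1.1 y.2) ∨
      Bad (outInd C) (q * D) q 1 c y.1.1 y.2) ?_).trans ?_
  · rintro ⟨S, ω⟩ ⟨h1, h2⟩
    by_contra hcon
    push Not at hcon
    obtain ⟨h3, h4⟩ := hcon
    have h5 := hC n B (f * c) m f c q D C lev hmono hlev hIs hf hc hq hqB ω S.1 h3 h4 h1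
    have h8 : C.eval (graphInput (gr (stage ω B))) = false := h2
    rw [h5] at h8
    exact absurd h8 (by simp)
  · refine (prob_or' _ _).trans ?_
    unfold errR
    refine add_le_add ?_ hout
    refine (prob_exists' _ _).trans ?_
    refine (sum_le_sum fun j hj => hgate j (mem_range.1 hj)).trans ?_
    rw [sum_const, card_range, nsmul_eq_mul]
    have h1 : (C.size : ℝ) ≤ s := by exact_mod_cast hs
    refine mul_le_mul_of_nonneg_right h1 ?_
    exact mul_nonneg (Nat.cast_nonneg _) (sum_nonneg fun j _ => hw0 j)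

end Pool.Agent.T9h68.QC
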