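import Pool.Agent.T9h34.Q.Spec

/-!
# Piece (H1): one random star is invisible in a random graph (chi-square)
-/

set_option autoImplicit false
set_option linter.unusedSectionVars false

namespace Pool.Agent.T9h68.QC

open Finset
open Pool.Agent.PC34 (prob)
open Pool.Agent.T9h34.Q

section gen

variable {E P : Type} [Fintype E] [DecidableEq E] [Fintype P]

theorem card_fib (K H : Finset E) :
    (univ.filter (fun G : Finset E => G ∪ K = H)).card = if K ⊆ H then 2 ^ K.card else 0 := by
  split_ifs with hKH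
  · rw [← card_powerset]
    refine card_nbij' (fun G => G ∩ K) (fun A => (H \ K) ∪ A) ?_ ?_ ?_ ?_
    · intro G _
      simp [inter_subset_right]
    · intro A hA
      simp only [coe_powerset, Set.mem_preimage, Set.mem_powerset_iff, coe_subset] at hA
      simp only [coe_filter, mem_univ, true_and, Set.mem_ofPred_eq]
      ext e
      simp only [mem_union, mem_sdiff]
      constructor
      · rintro ((h | h) | h)
        · exact h.1
        · exact hKH (hA h)
        · exact hKH h
      · intro h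
        by_cases he : e ∈ K
        · exact Or.inr he
        · exact Or.inl (Or.inl ⟨h, he⟩)
    · intro G hG
      simp only [coe_filter, mem_univ, true_and, Set.mem_ofPred_eq] at hG
      subst hG
      ext e
      simp only [mem_union, mem_sdiff, mem_inter]
      tauto
    · intro A hA
      simp only [coe_powerset, Set.mem_preimage, Set.mem_powerset_iff, coe_subset] at hA
      ext e
      simp only [mem_union, mem_sdiff, mem_inter]
      constructor
      · rintro ⟨h | h, h'⟩
        · exact absurd h' h.2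
        · exact h
      · intro h
        exact ⟨Or.inr h, hA h⟩
  · rw [card_eq_zero, filter_eq_empty_iff]
    intro G _ h
    exact hKH (by rw [← h]; exact subset_union_right)

theorem sum_union (K : Finset E) (F : Finset E → ℝ) :
    ∑ G : Finset E, F (G ∪ K) = 2 ^ K.card * ∑ H : Finset E, if K ⊆ H then F H else 0 := by
  rw [← sum_fiberwise (s := (univ : Finset (Finset E))) (g := fun G => G ∪ K)
    (f := fun G => F (G ∪ K)), mul_sum]
  refine sum_congr rfl fun H _ => ?_
  have h1 : ∑ G ∈ univ.filter (fun G : Finset E => G ∪ K = H), F (G ∪ K) =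
      ∑ G ∈ univ.filter (fun G : Finset E => G ∪ K = H), F H :=
    sum_congr rfl fun G hG => by rw [(mem_filter.1 hG).2]
  rw [h1, sum_const, card_fib]
  split_ifs
  · simp
  · simp

theorem sum_sup (K : Finset E) :
    ∑ H : Finset E, (if K ⊆ H then (1 : ℝ) else 0) = 2 ^ Fintype.card E / 2 ^ K.card := by
  have h1 := sum_union K (fun _ => (1 : ℝ))
  rw [sum_const, card_univ, Fintype.card_finset] at h1
  rw [eq_div_iff (by positivity), mul_comm, ← h1]
  simp

/-- the density, times the number of packets -/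
noncomputable def den (st : P → Finset E) (H : Finset E) : ℝ :=
  ∑ p, if st p ⊆ H then (2 : ℝ) ^ (st p).card else 0

theorem sum_den_mul (st : P → Finset E) (F : Finset E → ℝ) :
    ∑ G : Finset E, ∑ p, F (G ∪ st p) = ∑ H, F H * den st H := by
  rw [sum_comm]
  simp only [sum_union, den, mul_sum]
  rw [sum_comm]
  refine sum_congr rfl fun H _ => sum_congr rfl fun p _ => ?_
  split_ifs
  · ring
  · ring

theorem sum_den (st : P → Finset E) :
    ∑ H, den st H = 2 ^ Fintype.card E * Fintype.card P := by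
  have h1 := sum_den_mul st (fun _ => (1 : ℝ))
  simp only [one_mul] at h1
  rw [← h1]
  simp

theorem sum_den_sq (st : P → Finset E) :
    ∑ H, den st H ^ 2 = 2 ^ Fintype.card E * ∑ p, ∑ p', (2 : ℝ) ^ (st p ∩ st p').card := by
  have h1 : ∀ H, den st H ^ 2 = ∑ p, ∑ p', (2 : ℝ) ^ (st p).card * 2 ^ (st p').card *
      (if st p ∪ st p' ⊆ H then 1 else 0) := by
    intro H
    rw [sq, den, sum_mul_sum]
    refine sum_congr rfl fun p _ => sum_congr rfl fun p' _ => ?_
    by_cases h1 : st p ⊆ H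
    · by_cases h2 : st p' ⊆ H
      · simp [h1, h2, union_subset_iff]
      · simp [h1, h2, union_subset_iff]
    · simp [h1, union_subset_iff]
  simp only [h1]
  rw [sum_comm, mul_sum]
  refine sum_congr rfl fun p _ => ?_
  rw [sum_comm, mul_sum]
  refine sum_congr rfl fun p' _ => ?_
  rw [← mul_sum, sum_sup]
  have h2 : (2 : ℝ) ^ (st p).card * 2 ^ (st p').card =
      2 ^ (st p ∪ st p').card * 2 ^ (st p ∩ st p').card := by
    rw [← pow_add, ← pow_add, card_union_add_card_inter]
  rw [h2]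
  field_simp

theorem prob_diff_sq (st : P → Finset E) [Nonempty P] (Θ : Finset E → Prop) :
    (prob (fun x : Finset E × P => Θ (x.1 ∪ st x.2)) - prob Θ) ^ 2 ≤
    ((∑ p, ∑ p', (2 : ℝ) ^ (st p ∩ st p').card) - (Fintype.card P : ℝ) ^ 2) /
      (Fintype.card P : ℝ) ^ 2 := by
  classical
  set θ : Finset E → ℝ := fun H => if Θ H then 1 else 0 with hθ
  set M : ℝ := 2 ^ Fintype.card E with hM
  set N : ℝ := (Fintype.card P : ℝ) with hN
  set S : ℝ := ∑ p, ∑ p', (2 : ℝ) ^ (st p ∩ st p').card with hS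
  have hM0 : 0 < M := by positivity
  have hN0 : 0 < N := by
    rw [hN]; exact_mod_cast Fintype.card_pos
  have e1 : prob (fun x : Finset E × P => Θ (x.1 ∪ st x.2)) = (∑ H, θ H * den st H) / (M * N) := by
    unfold prob
    rw [← sum_den_mul, Fintype.card_prod, Fintype.card_finset]
    congr 1
    · rw [card_filter, Nat.cast_sum, Fintype.sum_prod_type]
      refine sum_congr rfl fun G _ => sum_congr rfl fun p _ => ?_
      simp only [hθ]
      split_ifs <;> simp
    · push_cast
      rfl
  have e2 : prob Θ = (∑ H, θ H) / M := by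
    unfold prob
    rw [Fintype.card_finset]
    congr 1
    · rw [card_filter, Nat.cast_sum]
      refine sum_congr rfl fun G _ => ?_
      simp only [hθ]
      split_ifs <;> simp
    · push_cast
      rfl
  have e3 : prob (fun x : Finset E × P => Θ (x.1 ∪ st x.2)) - prob Θ =
      (∑ H, θ H * (den st H - N)) / (M * N) := by
    rw [e1, e2]
    have : ∑ H, θ H * (den st H - N) = ∑ H, θ H * den st H - N * ∑ H, θ H := by
      rw [mul_sum, ← sum_sub_distrib]
      exact sum_congr rfl fun H _ => by ring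
    rw [this]
    field_simp
  have e4 : ∑ H, (den st H - N) ^ 2 = M * (S - N ^ 2) := by
    have h1 : ∑ H, (den st H - N) ^ 2 =
        ∑ H, den st H ^ 2 - 2 * N * ∑ H, den st H + ∑ H : Finset E, N ^ 2 := by
      rw [mul_sum, ← sum_sub_distrib, ← sum_add_distrib]
      exact sum_congr rfl fun H _ => by ring
    rw [h1, sum_den_sq, sum_den, sum_const, card_univ, Fintype.card_finset]
    simp only [nsmul_eq_mul]
    push_cast
    ring
  have e5 : ∑ H, θ H ^ 2 ≤ M := by
    have : ∑ H, θ H ^ 2 ≤ ∑ H : Finset E, (1 : ℝ) := by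
      refine sum_le_sum fun H _ => ?_
      simp only [hθ]
      split_ifs <;> norm_num
    refine this.trans ?_
    rw [sum_const, card_univ, Fintype.card_finset]
    simp [hM]
  have e6 := sum_mul_sq_le_sq_mul_sq univ θ (fun H => den st H - N)
  rw [e4] at e6
  have e7 : 0 ≤ M * (S - N ^ 2) := by
    rw [← e4]
    exact sum_nonneg fun H _ => sq_nonneg _
  have e8 : (∑ H, θ H * (den st H - N)) ^ 2 ≤ M * (M * (S - N ^ 2)) :=
    e6.trans (mul_le_mul_of_nonneg_right e5 e7)
  rw [e3, div_pow, div_le_div_iff₀ (by positivity) (by positivity)]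
  calc (∑ H, θ H * (den st H - N)) ^ 2 * N ^ 2 ≤ M * (M * (S - N ^ 2)) * N ^ 2 :=
        mul_le_mul_of_nonneg_right e8 (by positivity)
    _ = (S - N ^ 2) * (M * N) ^ 2 := by ring

end gen

theorem pow_bd {x : ℝ} (hx : 0 ≤ x) : ∀ k : ℕ, (k : ℝ) * x ≤ 1 →
    (1 + x) ^ k ≤ 1 + k * x + (k * x) ^ 2 := by
  intro k
  induction k with
  | zero => intro _; simp
  | succ k ih =>
    intro h
    push_cast at h ⊢
    have hk : (0 : ℝ) ≤ k := Nat.cast_nonneg k
    have h1 := ih (by nlinarith)
    have h2 : (k : ℝ) * x ≤ 1 := by nlinarith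
    have h3 : (k : ℝ) ^ 2 * x ≤ k := by nlinarith
    have h4 : 0 ≤ x ^ 2 := sq_nonneg x
    calc (1 + x) ^ (k + 1) = (1 + x) ^ k * (1 + x) := pow_succ _ _
      _ ≤ (1 + k * x + (k * x) ^ 2) * (1 + x) := mul_le_mul_of_nonneg_right h1 (by linarith)
      _ ≤ 1 + (k + 1) * x + ((k + 1) * x) ^ 2 := by nlinarith [mul_le_mul_of_nonneg_right h3 h4]

section stars

variable {V ρ : Type} [Fintype V] [DecidableEq V] [Fintype ρ] [DecidableEq ρ]

/-- the packet with centre `y` and leaves `x` -/
def pkt (y : V) (x : ρ → V) : Option ρ → V := fun o => o.elim y x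

theorem sum_pkt (F : (Option ρ → V) → ℝ) : ∑ p, F p = ∑ y, ∑ x : ρ → V, F (pkt y x) := by
  rw [← Fintype.sum_prod_type']
  refine Fintype.sum_equiv Equiv.piOptionEquivProd _ _ fun p => ?_
  congr 1
  funext o
  cases o <;> rfl

theorem sum_two_pow (I : Finset V) :
    ∑ x : ρ → V, (2 : ℝ) ^ (univ.filter (fun r => x r ∈ I)).card =
      ((Fintype.card V : ℝ) + I.card) ^ Fintype.card ρ := by
  have h1 : ∀ x : ρ → V, (2 : ℝ) ^ (univ.filter (fun r => x r ∈ I)).card =
      ∏ r, (if x r ∈ I then (2 : ℝ) else 1) := by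
    intro x
    rw [prod_ite, prod_const, prod_const_one, mul_one]
  simp only [h1]
  have h2 := prod_univ_sum (t := fun _ : ρ => (univ : Finset V))
    (f := fun _ v => if v ∈ I then (2 : ℝ) else 1)
  rw [Fintype.piFinset_univ] at h2
  rw [← h2, prod_const, card_univ]
  congr 1
  have h3 : ∀ v : V, (if v ∈ I then (2 : ℝ) else 1) = 1 + if v ∈ I then 1 else 0 := by
    intro v; split_ifs <;> norm_num
  simp only [h3, sum_add_distrib, sum_const, card_univ]
  simp

theorem star_inter_self (y : V) (x x' : ρ → V) :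
    (star (pkt y x) ∩ star (pkt y x')).card ≤
      (univ.filter (fun r => x r ∈ univ.image x')).card := by
  have h1 : star (pkt y x) ∩ star (pkt y x') ⊆
      (univ.filter (fun r => x r ∈ univ.image x')).image (fun r => s(y, x r)) := by
    intro e he
    rw [mem_inter] at he
    obtain ⟨h1, h2⟩ := he
    simp only [Pool.Agent.T9h34.Q.star, mem_image, mem_univ, true_and, pkt, Option.elim] at h1 h2
    obtain ⟨r, hr⟩ := h1
    obtain ⟨t, ht⟩ := h2
    rw [mem_image]
    refine ⟨r, ?_, hr⟩
    rw [mem_filter]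
    refine ⟨mem_univ _, mem_image.2 ⟨t, mem_univ _, ?_⟩⟩
    rw [← hr, Sym2.eq_iff] at ht
    rcases ht with ht | ht
    · exact ht.2
    · exact ht.2.trans ht.1
  exact (card_le_card h1).trans card_image_le

theorem star_inter_ne {y y' : V} (hy : y ≠ y') (x x' : ρ → V) :
    (2 : ℝ) ^ (star (pkt y x) ∩ star (pkt y' x')).card - 1 ≤
      (if y' ∈ univ.image x then 1 else 0) * (if y ∈ univ.image x' then 1 else 0) := by
  have h1 : ∀ e ∈ star (pkt y x) ∩ star (pkt y' x'), e = s(y, y') ∧ y' ∈ univ.image x ∧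
      y ∈ univ.image x' := by
    intro e he
    rw [mem_inter] at he
    obtain ⟨h1, h2⟩ := he
    simp only [Pool.Agent.T9h34.Q.star, mem_image, mem_univ, true_and, pkt, Option.elim] at h1 h2
    obtain ⟨r, hr⟩ := h1
    obtain ⟨t, ht⟩ := h2
    rw [← hr, Sym2.eq_iff] at ht
    rcases ht with ht | ht
    · exact absurd ht.1.symm hy
    · refine ⟨?_, mem_image.2 ⟨r, mem_univ _, ht.1.symm⟩, mem_image.2 ⟨t, mem_univ _, ht.2⟩⟩
      rw [← hr, ← ht.1]
  have hc : (star (pkt y x) ∩ star (pkt y' x')).card ≤ 1 := by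
    rw [card_le_one]
    intro e he e' he'
    rw [(h1 e he).1, (h1 e' he').1]
  rcases Nat.eq_zero_or_pos (star (pkt y x) ∩ star (pkt y' x')).card with h0 | h0
  · rw [h0]
    have : (0 : ℝ) ≤ (if y' ∈ univ.image x then 1 else 0) * (if y ∈ univ.image x' then 1 else 0) := by
      split_ifs <;> norm_num
    simpa using this
  · obtain ⟨e, he⟩ := card_pos.1 h0
    obtain ⟨-, h2, h3⟩ := h1 e he
    rw [if_pos h2, if_pos h3, show (star (pkt y x) ∩ star (pkt y' x')).card = 1 by omega]
    norm_num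

theorem sum_mem_image :
    ∑ y' : V, ∑ x : ρ → V, (if y' ∈ univ.image x then (1 : ℝ) else 0) ≤
      Fintype.card ρ * (Fintype.card V : ℝ) ^ Fintype.card ρ := by
  rw [sum_comm]
  have h1 : ∀ x : ρ → V, ∑ y' : V, (if y' ∈ univ.image x then (1 : ℝ) else 0) ≤
      Fintype.card ρ := by
    intro x
    rw [sum_ite_mem]
    simp only [univ_inter, sum_const, nsmul_eq_mul, mul_one]
    have : (univ.image x).card ≤ Fintype.card ρ := card_image_le
    exact_mod_cast this
  refine (sum_le_sum fun x _ => h1 x).trans ?_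
  rw [sum_const, card_univ, Fintype.card_fun, nsmul_eq_mul]
  push_cast
  rw [mul_comm]

theorem sum_pairs [Nonempty V] (hR : (Fintype.card ρ) ^ 2 ≤ Fintype.card V) :
    (∑ p : Option ρ → V, ∑ p' : Option ρ → V, (2 : ℝ) ^ (star p ∩ star p').card) -
      (Fintype.card (Option ρ → V) : ℝ) ^ 2 ≤
    (2 * (Fintype.card ρ : ℝ) / Fintype.card V) ^ 2 * (Fintype.card (Option ρ → V) : ℝ) ^ 2 := by
  set n : ℝ := (Fintype.card V : ℝ) with hn
  set R : ℕ := Fintype.card ρ with hRdef
  have hn0 : 0 < n := by rw [hn]; exact_mod_cast Fintype.card_pos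
  have hRn : (R : ℝ) ^ 2 ≤ n := by rw [hn]; exact_mod_cast hR
  have hcard : (Fintype.card (Option ρ → V) : ℝ) = n * n ^ R := by
    rw [Fintype.card_fun, Fintype.card_option]
    push_cast
    rw [pow_succ]
    ring
  have h1 : (∑ p : Option ρ → V, ∑ p' : Option ρ → V, (2 : ℝ) ^ (star p ∩ star p').card) -
      (Fintype.card (Option ρ → V) : ℝ) ^ 2 =
      ∑ y : V, ∑ x : ρ → V, ∑ y' : V, ∑ x' : ρ → V,
        ((2 : ℝ) ^ (star (pkt y x) ∩ star (pkt y' x')).card - 1) := by
    have h2 : (Fintype.card (Option ρ → V) : ℝ) ^ 2 =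
        ∑ y : V, ∑ x : ρ → V, ∑ y' : V, ∑ x' : ρ → V, (1 : ℝ) := by
      rw [hcard]
      simp only [sum_const, card_univ, nsmul_eq_mul, mul_one, Fintype.card_fun]
      push_cast
      ring
    rw [h2, sum_pkt]
    have h3 : ∀ (y : V) (x : ρ → V),
        ∑ p' : Option ρ → V, (2 : ℝ) ^ (Pool.Agent.T9h34.Q.star (pkt y x) ∩
          Pool.Agent.T9h34.Q.star p').card =
        ∑ y' : V, ∑ x' : ρ → V, (2 : ℝ) ^ (Pool.Agent.T9h34.Q.star (pkt y x) ∩
          Pool.Agent.T9h34.Q.star (pkt y' x')).card := fun y x => sum_pkt _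
    simp only [h3, sum_sub_distrib]
  have h2 : ∀ (y : V) (x : ρ → V) (y' : V) (x' : ρ → V),
      (2 : ℝ) ^ (star (pkt y x) ∩ star (pkt y' x')).card - 1 ≤
      (if y' = y then (2 : ℝ) ^ (univ.filter (fun r => x r ∈ univ.image x')).card - 1 else 0) +
      (if y' ∈ univ.image x then 1 else 0) * (if y ∈ univ.image x' then 1 else 0) := by
    intro y x y' x'
    have h0 : (0 : ℝ) ≤ (if y' ∈ univ.image x then 1 else 0) *
        (if y ∈ univ.image x' then 1 else 0) := by
      split_ifs <;> norm_num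
    by_cases hy : y' = y
    · subst hy
      rw [if_pos rfl]
      have h3 := star_inter_self y' x x'
      have h4 : (2 : ℝ) ^ (star (pkt y' x) ∩ star (pkt y' x')).card ≤
          2 ^ (univ.filter (fun r => x r ∈ univ.image x')).card :=
        pow_le_pow_right₀ (by norm_num) h3
      linarith
    · rw [if_neg hy, zero_add]
      exact star_inter_ne (Ne.symm hy) x x'
  have h3 : ∑ y : V, ∑ x : ρ → V, ∑ y' : V, ∑ x' : ρ → V,
      (if y' = y then (2 : ℝ) ^ (univ.filter (fun r => x r ∈ univ.image x')).card - 1 else 0) ≤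
      n * (n ^ R * ((n + R) ^ R - n ^ R)) := by
    have h4 : ∀ y : V, ∑ x : ρ → V, ∑ y' : V, ∑ x' : ρ → V,
        (if y' = y then (2 : ℝ) ^ (univ.filter (fun r => x r ∈ univ.image x')).card - 1 else 0) =
        ∑ x' : ρ → V, ∑ x : ρ → V,
          ((2 : ℝ) ^ (univ.filter (fun r => x r ∈ univ.image x')).card - 1) := by
      intro y
      rw [sum_comm (γ := ρ → V) (s := (univ : Finset (ρ → V))) (t := (univ : Finset (ρ → V)))]
      refine sum_congr rfl fun x _ => ?_
      rw [sum_comm]
      refine sum_congr rfl fun x' _ => ?_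
      rw [sum_ite_eq' univ y]
      simp
    simp only [h4]
    rw [sum_const, card_univ, nsmul_eq_mul]
    refine mul_le_mul_of_nonneg_left ?_ hn0.le
    have h5 : ∀ x' : ρ → V, ∑ x : ρ → V,
        ((2 : ℝ) ^ (univ.filter (fun r => x r ∈ univ.image x')).card - 1) ≤
        (n + R) ^ R - n ^ R := by
      intro x'
      rw [sum_sub_distrib, sum_two_pow, sum_const, card_univ, Fintype.card_fun]
      simp only [nsmul_eq_mul, mul_one]
      push_cast
      have h6 : ((univ.image x').card : ℝ) ≤ R := by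
        have : (univ.image x').card ≤ R := card_image_le
        exact_mod_cast this
      have h7 : (n + ((univ.image x').card : ℝ)) ^ R ≤ (n + R) ^ R :=
        pow_le_pow_left₀ (by positivity) (by linarith) R
      linarith
    refine (sum_le_sum fun x' _ => h5 x').trans ?_
    rw [sum_const, card_univ, Fintype.card_fun, nsmul_eq_mul]
    push_cast
    exact le_refl _
  have h4 : ∑ y : V, ∑ x : ρ → V, ∑ y' : V, ∑ x' : ρ → V,
      ((if y' ∈ univ.image x then (1 : ℝ) else 0) * (if y ∈ univ.image x' then 1 else 0)) ≤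
      (R * n ^ R) * (R * n ^ R) := by
    have h5 : ∑ y : V, ∑ x : ρ → V, ∑ y' : V, ∑ x' : ρ → V,
        ((if y' ∈ univ.image x then (1 : ℝ) else 0) * (if y ∈ univ.image x' then 1 else 0)) =
        (∑ y' : V, ∑ x : ρ → V, (if y' ∈ univ.image x then (1 : ℝ) else 0)) *
        (∑ y : V, ∑ x' : ρ → V, (if y ∈ univ.image x' then (1 : ℝ) else 0)) := by
      have h6 : ∀ y : V, ∑ x : ρ → V, ∑ y' : V, ∑ x' : ρ → V,
          ((if y' ∈ univ.image x then (1 : ℝ) else 0) * (if y ∈ univ.image x' then 1 else 0)) =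
          (∑ y' : V, ∑ x : ρ → V, (if y' ∈ univ.image x then (1 : ℝ) else 0)) *
          ∑ x' : ρ → V, (if y ∈ univ.image x' then (1 : ℝ) else 0) := by
        intro y
        simp only [← mul_sum]
        simp only [← sum_mul]
        rw [sum_comm]
      simp only [h6]
      rw [← mul_sum]
    rw [h5]
    have h6 := sum_mem_image (V := V) (ρ := ρ)
    have h7 : (0 : ℝ) ≤ ∑ y' : V, ∑ x : ρ → V, (if y' ∈ univ.image x then (1 : ℝ) else 0) :=
      sum_nonneg fun _ _ => sum_nonneg fun _ _ => by split_ifs <;> norm_num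
    exact mul_le_mul h6 h6 h7 (by positivity)
  have h5 : (n + R) ^ R ≤ n ^ R * (1 + 2 * R ^ 2 / n) := by
    have hx : (0 : ℝ) ≤ R / n := by positivity
    have h6 : (R : ℝ) * (R / n) ≤ 1 := by
      rw [← mul_div_assoc, div_le_one hn0, ← sq]
      exact hRn
    have h7 := pow_bd hx R h6
    have h8 : (n + R) ^ R = n ^ R * (1 + R / n) ^ R := by
      rw [← mul_pow]
      congr 1
      field_simp
    rw [h8]
    refine mul_le_mul_of_nonneg_left (h7.trans ?_) (by positivity)
    have h9 : (R : ℝ) * (R / n) = R ^ 2 / n := by ring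
    have h10 : 0 ≤ (R : ℝ) ^ 2 / n := by positivity
    rw [h9] at h6 ⊢
    have h11 : (R ^ 2 / n : ℝ) ^ 2 ≤ R ^ 2 / n := by nlinarith
    have h12 : (2 : ℝ) * R ^ 2 / n = 2 * (R ^ 2 / n) := by ring
    rw [h12]
    linarith
  rw [h1]
  refine (sum_le_sum fun y _ => sum_le_sum fun x _ => sum_le_sum fun y' _ =>
    sum_le_sum fun x' _ => h2 y x y' x').trans ?_
  simp only [sum_add_distrib]
  refine (add_le_add h3 h4).trans ?_
  rw [hcard]
  have h6 : n * (n ^ R * ((n + R) ^ R - n ^ R)) ≤ n * (n ^ R * (n ^ R * (2 * R ^ 2 / n))) := by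
    refine mul_le_mul_of_nonneg_left (mul_le_mul_of_nonneg_left ?_ (by positivity)) hn0.le
    have : n ^ R * (1 + 2 * R ^ 2 / n) = n ^ R + n ^ R * (2 * R ^ 2 / n) := by ring
    linarith
  have h7 : n * (n ^ R * (n ^ R * (2 * R ^ 2 / n))) = 2 * R ^ 2 * (n ^ R) ^ 2 := by
    field_simp
  have h8 : (2 * (R : ℝ) / n) ^ 2 * (n * n ^ R) ^ 2 = 4 * R ^ 2 * (n ^ R) ^ 2 := by
    field_simp
    ring
  rw [h8]
  have h9 : (R * n ^ R) * (R * n ^ R) = (R : ℝ) ^ 2 * (n ^ R) ^ 2 := by ring
  rw [h9]
  rw [h7] at h6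
  nlinarith [mul_nonneg (sq_nonneg (R : ℝ)) (sq_nonneg (n ^ R))]

end stars

/-- (H1) -/
theorem stStar : StStar := by
  intro V ρ _ _ _ _ _ hR Θ
  have h1 := prob_diff_sq (E := Sym2 V) (P := Option ρ → V) star Θ
  have h2 := sum_pairs (V := V) (ρ := ρ) hR
  have hP : (0 : ℝ) < Fintype.card (Option ρ → V) := by exact_mod_cast Fintype.card_pos
  have h3 : (prob (fun x : Finset (Sym2 V) × (Option ρ → V) => Θ (x.1 ∪ star x.2)) - prob Θ) ^ 2 ≤
      (2 * (Fintype.card ρ : ℝ) / Fintype.card V) ^ 2 := by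
    refine h1.trans ?_
    rw [div_le_iff₀ (by positivity)]
    exact h2
  have h4 := (abs_le.1 (abs_le_of_sq_le_sq h3 (by positivity))).2
  linarith

end Pool.Agent.T9h68.QC
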